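import Mathlib
import Pool.Agent.R695.CC.Stm

/-!
Basic measurability facts for the walk (MP_c99e7e_pr).
-/

set_option autoImplicit false

open MeasureTheory ProbabilityTheory Finset
open scoped ENNReal

namespace Pool.Agent.R695.CC

section base

variable {V : Type} [Fintype V] [MeasurableSpace V] [DiscreteMeasurableSpace V]

omit [Fintype V] in
theorem meas_eq (n : ℕ) (y : V) : MeasurableSet {ω : ℕ → V | ω n = y} :=
  measurableSet_preimage (f := fun ω : ℕ → V => ω n) (measurable_pi_apply n)
    (MeasurableSet.of_discrete (s := ({y} : Set V)))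

theorem meas_unc (S : Set V) (t : ℕ) : MeasurableSet (unc S t) := by
  have h1 : unc S t = ⋃ y ∈ S, ⋂ s ∈ Set.Iic t, {ω : ℕ → V | ω s = y}ᶜ := by
    ext ω
    simp [unc]
  rw [h1]
  exact MeasurableSet.biUnion (Set.to_countable S) fun y _ =>
    MeasurableSet.biInter (Set.to_countable _) fun s _ => (meas_eq s y).compl

omit [Fintype V] in
theorem meas_avd (y : V) (t : ℕ) : MeasurableSet (avd y t) := by
  have h1 : avd y t = ⋂ s ∈ Set.Iic t, {ω : ℕ → V | ω s = y}ᶜ := by
    ext ω
    simp [avd]
  rw [h1]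
  exact MeasurableSet.biInter (Set.to_countable _) fun s _ => (meas_eq s y).compl

omit [Fintype V] in
theorem meas_fst (y : V) (n : ℕ) : MeasurableSet (fst y n) := by
  have h1 : fst y n = {ω : ℕ → V | ω n = y} ∩ ⋂ s ∈ Set.Iio n, {ω : ℕ → V | ω s = y}ᶜ := by
    ext ω
    simp [fst]
  rw [h1]
  exact (meas_eq n y).inter
    (MeasurableSet.biInter (Set.to_countable _) fun s _ => (meas_eq s y).compl)

omit [Fintype V] in
theorem meas_bef (a b : V) : MeasurableSet (bef a b) := by
  have h1 : bef a b = ⋃ n, ({ω : ℕ → V | ω n = a} ∩ ⋂ s ∈ Set.Iio n, {ω : ℕ → V | ω s = b}ᶜ) := by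
    ext ω
    simp [bef]
  rw [h1]
  exact MeasurableSet.iUnion fun n => (meas_eq n a).inter
    (MeasurableSet.biInter (Set.to_countable _) fun s _ => (meas_eq s b).compl)

omit [Fintype V] [DiscreteMeasurableSpace V] in
theorem meas_shf (n : ℕ) : Measurable (shf n : (ℕ → V) → (ℕ → V)) :=
  measurable_pi_lambda _ fun k => measurable_pi_apply (n + k)

theorem summ_unc {G : SimpleGraph V} {μ : V → Measure (ℕ → V)} (hF : Fam G μ) (hR : Rec G μ)
    (x : V) (S : Set V) : Summable fun t => (μ x).real (unc S t) := by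
  have := hF.prob x
  have h1 : ∀ t, (μ x).real (unc S t) ≤ ∑ v, (μ x).real (avd v t) := by
    intro t
    have h2 : unc S t ⊆ ⋃ v ∈ (Finset.univ : Finset V), avd v t := by
      rintro ω ⟨y, _, hy⟩
      simp only [Set.mem_iUnion]
      exact ⟨y, Finset.mem_univ y, hy⟩
    exact (measureReal_mono h2 (measure_ne_top _ _)).trans (measureReal_biUnion_finset_le _ _)
  exact Summable.of_nonneg_of_le (fun t => measureReal_nonneg) h1
    (summable_sum fun v _ => hR.sum x v)

end base

end Pool.Agent.R695.CC
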