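import Mathlib
import Pool.Agent.R695.CC.Stm
import Pool.Agent.R679.CC.Base

/-!
CT1 and CT2 of MP_c99e7e_pr.
-/

set_option autoImplicit false

open MeasureTheory ProbabilityTheory Finset
open scoped ENNReal

namespace Pool.Agent.R695.CC

section ct12

variable {V : Type} [Fintype V] [MeasurableSpace V] [DiscreteMeasurableSpace V]

omit [Fintype V] [MeasurableSpace V] [DiscreteMeasurableSpace V] in
/-- first visit -/
theorem avd_or_fst (c : V) (t : ℕ) (ω : ℕ → V) : ω ∈ avd c t ∨ ∃ s ≤ t, ω ∈ fst c s := by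
  classical
  by_cases hh : ∃ s, s ≤ t ∧ ω s = c
  · right
    refine ⟨Nat.find hh, (Nat.find_spec hh).1, (Nat.find_spec hh).2, fun m hm he => ?_⟩
    exact Nat.find_min hh hm ⟨hm.le.trans (Nat.find_spec hh).1, he⟩
  · left
    intro s hs he
    exact hh ⟨s, hs, he⟩

omit [Fintype V] [MeasurableSpace V] [DiscreteMeasurableSpace V] in
theorem fst_unique (c : V) (m n : ℕ) (ω : ℕ → V) (h1 : ω ∈ fst c m) (h2 : ω ∈ fst c n) :
    m = n := by
  rcases lt_trichotomy m n with h3 | h3 | h3
  · exact absurd h1.1 (h2.2 m h3)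
  · exact h3
  · exact absurd h2.1 (h1.2 n h3)

omit [Fintype V] in
/-- the sum of the probabilities of `E ∩ fst c s` -/
theorem sum_fst_le {μ : Measure (ℕ → V)} [IsProbabilityMeasure μ] (c : V) (E : Set (ℕ → V))
    (hE : MeasurableSet E) (n : ℕ) :
    ∑ s ∈ Finset.range n, μ.real (E ∩ fst c s) ≤ μ.real E := by
  rw [← measureReal_biUnion_finset]
  · exact measureReal_mono (Set.iUnion₂_subset fun s _ => Set.inter_subset_left)
      (measure_ne_top _ _)
  · intro a _ b _ hab
    rw [Function.onFun, Set.disjoint_left]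
    rintro ω ⟨_, h5⟩ ⟨_, h6⟩
    exact hab (fst_unique c a b ω h5 h6)
  · intro s _
    exact hE.inter (meas_fst c s)

/-- a bound for the sum of a Cauchy product -/
theorem cauchy_bd (p b : ℕ → ℝ) (hp : ∀ s, 0 ≤ p s) (hb : ∀ s, 0 ≤ b s) (P : ℝ)
    (hP : ∀ n, ∑ s ∈ Finset.range n, p s ≤ P) (hbs : Summable b) :
    Summable (fun t => ∑ s ∈ Finset.range (t + 1), p s * b (t - s)) ∧
      ∑' t, ∑ s ∈ Finset.range (t + 1), p s * b (t - s) ≤ P * ∑' t, b t := by
  have hps : Summable p := summable_of_sum_range_le hp hP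
  have hpn : Summable fun s => ‖p s‖ := hps.norm
  have hbn : Summable fun s => ‖b s‖ := hbs.norm
  constructor
  · exact (summable_norm_sum_mul_range_of_summable_norm hpn hbn).of_norm
  · rw [← tsum_mul_tsum_eq_tsum_sum_range_of_summable_norm hpn hbn]
    exact mul_le_mul_of_nonneg_right (Real.tsum_le_of_sum_range_le hp hP) (tsum_nonneg hb)

/-- the general inequality: go to `c` first, then cover -/
theorem cover_gen (hSM : S_SM2) {G : SimpleGraph V} {μ : V → Measure (ℕ → V)} (hF : Fam G μ)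
    (hR : Rec G μ) (x c : V) (S S1 S2 : Set V) (E : Set (ℕ → V)) (hE : MeasurableSet E)
    (hED : Det c E)
    (hcov : ∀ t : ℕ, ∀ ω ∈ unc S t, ∀ s ≤ t, ω ∈ fst c s → shf s ω ∈ unc S1 (t - s) ∨
      (ω ∈ E ∧ shf s ω ∈ unc S2 (t - s))) :
    cv μ x S ≤ h μ x c + cv μ c S1 + (μ x).real E * cv μ c S2 := by
  have hx := hF.prob x
  have hc := hF.prob c
  have hbd : ∀ t, (μ x).real (unc S t) ≤ (μ x).real (avd c t) +
      ∑ s ∈ Finset.range (t + 1), (μ x).real (Set.univ ∩ fst c s) * (μ c).real (unc S1 (t - s)) +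
      ∑ s ∈ Finset.range (t + 1), (μ x).real (E ∩ fst c s) * (μ c).real (unc S2 (t - s)) := by
    intro t
    have h1 : unc S t ⊆ (avd c t ∪ ⋃ s ∈ Finset.range (t + 1),
        (Set.univ ∩ fst c s ∩ {ω | shf s ω ∈ unc S1 (t - s)})) ∪
        ⋃ s ∈ Finset.range (t + 1), (E ∩ fst c s ∩ {ω | shf s ω ∈ unc S2 (t - s)}) := by
      intro ω hω
      rcases avd_or_fst c t ω with h2 | ⟨s, hs, h2⟩
      · exact Or.inl (Or.inl h2)
      · rcases hcov t ω hω s hs h2 with h3 | ⟨h3, h4⟩
        · refine Or.inl (Or.inr ?_)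
          simp only [Set.mem_iUnion]
          exact ⟨s, Finset.mem_range.2 (by omega), ⟨Set.mem_univ _, h2⟩, h3⟩
        · refine Or.inr ?_
          simp only [Set.mem_iUnion]
          exact ⟨s, Finset.mem_range.2 (by omega), ⟨h3, h2⟩, h4⟩
    have hD : Det c (Set.univ : Set (ℕ → V)) := fun _ _ _ _ _ _ => Set.mem_univ _
    calc (μ x).real (unc S t) ≤ _ := measureReal_mono h1 (measure_ne_top _ _)
      _ ≤ _ := measureReal_union_le _ _
      _ ≤ _ := add_le_add (measureReal_union_le _ _) (measureReal_biUnion_finset_le _ _)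
      _ ≤ _ := add_le_add (add_le_add le_rfl (measureReal_biUnion_finset_le _ _)) le_rfl
      _ = _ := by
        congr 1
        · congr 1
          exact Finset.sum_congr rfl fun s _ =>
            hSM V G μ hF s x c Set.univ _ (meas_unc _ _) hD
        · exact Finset.sum_congr rfl fun s _ => hSM V G μ hF s x c E _ (meas_unc _ _) hED
  obtain ⟨hs1, hl1⟩ := cauchy_bd (fun s => (μ x).real (Set.univ ∩ fst c s))
    (fun t => (μ c).real (unc S1 t)) (fun _ => measureReal_nonneg) (fun _ => measureReal_nonneg)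
    1 (fun n => (sum_fst_le c Set.univ MeasurableSet.univ n).trans measureReal_le_one)
    (summ_unc hF hR c S1)
  obtain ⟨hs2, hl2⟩ := cauchy_bd (fun s => (μ x).real (E ∩ fst c s))
    (fun t => (μ c).real (unc S2 t)) (fun _ => measureReal_nonneg) (fun _ => measureReal_nonneg)
    ((μ x).real E) (fun n => sum_fst_le c E hE n)
    (summ_unc hF hR c S2)
  have hs0 := hR.sum x c
  have h5 : cv μ x S ≤ ∑' t, ((μ x).real (avd c t) +
      ∑ s ∈ Finset.range (t + 1), (μ x).real (Set.univ ∩ fst c s) * (μ c).real (unc S1 (t - s)) +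
      ∑ s ∈ Finset.range (t + 1), (μ x).real (E ∩ fst c s) * (μ c).real (unc S2 (t - s))) :=
    (summ_unc hF hR x S).tsum_le_tsum hbd ((hs0.add hs1).add hs2)
  rw [(hs0.add hs1).tsum_add hs2, hs0.tsum_add hs1] at h5
  unfold cv h at *
  linarith

omit [Fintype V] [MeasurableSpace V] [DiscreteMeasurableSpace V] in
/-- `bef v c` is determined by the trajectory up to the first visit to `c` -/
theorem det_bef (v c : V) (ω ω' : ℕ → V) (n : ℕ) (h1 : ω ∈ fst c n)
    (h2 : ∀ m ≤ n, ω' m = ω m) (h3 : ω' ∈ bef v c) : ω ∈ bef v c := by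
  obtain ⟨k, hk1, hk2⟩ := h3
  have hkn : k ≤ n := by
    by_contra hc
    rw [not_le] at hc
    exact hk2 n hc (by rw [h2 n le_rfl]; exact h1.1)
  exact ⟨k, by rw [← h2 k hkn]; exact hk1, fun m hm => by
    rw [← h2 m (by omega)]; exact hk2 m hm⟩

end ct12

theorem CT1_ok : S_SM2 → S_CT1 := by
  intro hSM V _ _ _ G μ hF hR B r c
  refine cover_gen hSM hF hR r c Set.univ B Set.univ _ ?_ ?_ ?_
  · have h1 : {ω : ℕ → V | ∃ v, v ∉ B ∧ ω ∉ bef v c} = ⋃ v ∈ Bᶜ, (bef v c)ᶜ := by
      ext ω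
      simp
    rw [h1]
    exact MeasurableSet.biUnion (Set.to_countable _) fun v _ => (meas_bef v c).compl
  · rintro ω ω' n hω hh ⟨v, hv, hv2⟩
    exact ⟨v, hv, fun h3 => hv2 (det_bef v c ω ω' n hω hh h3)⟩
  · rintro t ω ⟨v, _, hv⟩ s hs hfs
    by_cases hvB : v ∈ B
    · left
      exact ⟨v, hvB, fun u hu => hv (s + u) (by omega)⟩
    · right
      refine ⟨⟨v, hvB, ?_⟩, v, Set.mem_univ _, fun u hu => hv (s + u) (by omega)⟩
      rintro ⟨k, hk1, hk2⟩
      have hkt : t < k := by
        by_contra hc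
        exact hv k (by omega) hk1
      exact hk2 s (by omega) hfs.1

theorem CT2_ok : S_SM2 → S_CT2 := by
  intro hSM V _ _ _ G μ hF hR L
  have hstep : ∀ (x v : V) (S : Set V), cv μ x S ≤ h μ x v + cv μ v (S \ {v}) := by
    intro x v S
    have h1 := cover_gen hSM hF hR x v S (S \ {v}) ∅ ∅ MeasurableSet.empty
      (fun _ _ _ _ _ h => h) (by
        rintro t ω ⟨y, hy, hy2⟩ s hs hfs
        left
        refine ⟨y, ⟨hy, ?_⟩, fun u hu => hy2 (s + u) (by omega)⟩
        rintro rfl
        exact hy2 s hs hfs.1)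
    simpa using h1
  have hempty : ∀ (x : V) (S : Set V), S = ∅ → cv μ x S = 0 := by
    rintro x S rfl
    have h1 : ∀ t, unc (∅ : Set V) t = ∅ := by
      intro t
      ext ω
      simp [unc]
    simp [cv, h1]
  induction L with
  | zero =>
    intro w S hS x
    have h1 := hstep x (w 0) S
    rw [hempty (w 0) (S \ {w 0})] at h1
    · simpa using h1
    · ext v
      simp only [Set.mem_diff, Set.mem_singleton_iff, Set.mem_empty_iff_false, iff_false, not_and,
        not_not]
      intro hv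
      obtain ⟨t, ht, h2⟩ := hS v hv
      rw [← h2]
      congr 1
      omega
  | succ L ih =>
    intro w S hS x
    have h1 := hstep x (w 0) S
    have h2 := ih (fun t => w (t + 1)) (S \ {w 0}) (by
      rintro v ⟨hv, hv2⟩
      obtain ⟨t, ht, h3⟩ := hS v hv
      rcases Nat.eq_zero_or_pos t with h0 | h0
      · subst h0
        exact absurd h3.symm hv2
      · exact ⟨t - 1, by omega, by
          show w (t - 1 + 1) = v
          rw [Nat.sub_add_cancel h0]; exact h3⟩) (w 0)
    rw [Finset.sum_range_succ']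
    simp only [zero_add] at h2 ⊢
    linarith

end Pool.Agent.R695.CC
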