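import Mathlib
import Pool.Agent.R695.CC.Stm
import Pool.Agent.R679.CC.Base

/-!
CT3 of MP_c99e7e_pr.
-/

set_option autoImplicit false

open MeasureTheory ProbabilityTheory Finset
open scoped ENNReal

namespace Pool.Agent.R695.CC

section ct3

variable {V : Type} [Fintype V] [MeasurableSpace V] [DiscreteMeasurableSpace V]

/-- block step -/
theorem block_step (hMK : S_MK) {G : SimpleGraph V} {μ : V → Measure (ℕ → V)} (hF : Fam G μ)
    (N : ℕ) (S : Set V) (hN : 1 ≤ N) (hS : ∀ x, (μ x).real (unc S (N - 1)) ≤ 1 / 2) (s : ℕ)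
    (hs : 1 ≤ s) (x : V) :
    (μ x).real (unc S ((s + 1) * N - 1)) ≤ 1 / 2 * (μ x).real (unc S (s * N - 1)) := by
  have := hF.prob x
  have hsN : 1 ≤ s * N := Nat.one_le_iff_ne_zero.2 (by positivity)
  set E : Set (ℕ → V) := unc S (s * N - 1) with hE
  have hEm : MeasurableSet E := meas_unc _ _
  have h1 : unc S ((s + 1) * N - 1) ⊆ ⋃ y ∈ (Finset.univ : Finset V),
      (E ∩ {ω | ω (s * N) = y} ∩ {ω | shf (s * N) ω ∈ unc S (N - 1)}) := by
    rintro ω ⟨v, hv, hv2⟩
    simp only [Set.mem_iUnion]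
    refine ⟨ω (s * N), Finset.mem_univ _, ⟨⟨v, hv, fun t ht => hv2 t ?_⟩, rfl⟩, v, hv,
      fun t ht => hv2 _ ?_⟩
    · have : (s + 1) * N = s * N + N := by ring
      omega
    · have : (s + 1) * N = s * N + N := by ring
      omega
  have h2 : ∀ y : V, (μ x).real (E ∩ {ω | ω (s * N) = y} ∩ {ω | shf (s * N) ω ∈ unc S (N - 1)}) ≤
      1 / 2 * (μ x).real (E ∩ {ω | ω (s * N) = y}) := by
    intro y
    rw [hMK V G μ hF (s * N) x y E (unc S (N - 1)) (meas_unc _ _), mul_comm]
    · exact mul_le_mul_of_nonneg_right (hS y) measureReal_nonneg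
    · rintro ω ω' hh ⟨v, hv, hv2⟩
      exact ⟨v, hv, fun t ht => by rw [hh t (by omega)]; exact hv2 t ht⟩
  have h3 : ∑ y : V, (μ x).real (E ∩ {ω | ω (s * N) = y}) = (μ x).real E := by
    have h4 : E = ⋃ y ∈ (Finset.univ : Finset V), (E ∩ {ω | ω (s * N) = y}) := by
      ext ω
      simp
    conv_rhs => rw [h4]
    rw [measureReal_biUnion_finset]
    · intro a _ b _ hab
      rw [Function.onFun, Set.disjoint_left]
      rintro ω ⟨_, h5⟩ ⟨_, h6⟩
      exact hab (h5.symm.trans h6)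
    · intro b _
      exact hEm.inter (meas_eq _ _)
  calc (μ x).real (unc S ((s + 1) * N - 1)) ≤ (μ x).real (⋃ y ∈ (Finset.univ : Finset V),
      (E ∩ {ω | ω (s * N) = y} ∩ {ω | shf (s * N) ω ∈ unc S (N - 1)})) :=
        measureReal_mono h1 (measure_ne_top _ _)
    _ ≤ ∑ y : V, (μ x).real (E ∩ {ω | ω (s * N) = y} ∩
        {ω | shf (s * N) ω ∈ unc S (N - 1)}) := measureReal_biUnion_finset_le _ _
    _ ≤ ∑ y : V, 1 / 2 * (μ x).real (E ∩ {ω | ω (s * N) = y}) :=
        Finset.sum_le_sum fun y _ => h2 y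
    _ = 1 / 2 * (μ x).real E := by rw [← Finset.mul_sum, h3]

theorem block_all (hMK : S_MK) {G : SimpleGraph V} {μ : V → Measure (ℕ → V)} (hF : Fam G μ)
    (N : ℕ) (S : Set V) (hN : 1 ≤ N) (hS : ∀ x, (μ x).real (unc S (N - 1)) ≤ 1 / 2) (s : ℕ)
    (x : V) : (μ x).real (unc S ((s + 1) * N - 1)) ≤ (1 / 2) ^ (s + 1) := by
  induction s with
  | zero => simpa using hS x
  | succ k ih =>
    refine (block_step hMK hF N S hN hS (k + 1) (by omega) x).trans ?_
    rw [pow_succ']
    exact mul_le_mul_of_nonneg_left ih (by norm_num)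

/-- the bounding sequence -/
noncomputable def gs (m s : ℕ) : ℝ := min 1 ((2 : ℝ) ^ m / 2 ^ s)

theorem gs_sum (m r : ℕ) : ∑ q ∈ Finset.range (m + 1 + r), gs m q ≤ m + 2 - (1 / 2) ^ r := by
  induction r with
  | zero =>
    have h1 : ∑ q ∈ Finset.range (m + 1), gs m q ≤ ∑ q ∈ Finset.range (m + 1), (1 : ℝ) :=
      Finset.sum_le_sum fun q _ => min_le_left _ _
    simp at h1 ⊢
    linarith
  | succ k ih =>
    rw [← add_assoc, Finset.sum_range_succ]
    have h1 : gs m (m + 1 + k) ≤ (1 / 2) ^ (k + 1) := by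
      refine (min_le_right _ _).trans (le_of_eq ?_)
      rw [show m + 1 + k = m + (k + 1) by ring, pow_add, one_div, inv_pow]
      field_simp
    have h2 : ((1 : ℝ) / 2) ^ k = 2 * (1 / 2) ^ (k + 1) := by
      rw [pow_succ]; ring
    linarith

theorem gs_nonneg (m s : ℕ) : 0 ≤ gs m s := le_min zero_le_one (by positivity)

theorem gs_sum' (m Q : ℕ) : ∑ q ∈ Finset.range Q, gs m q ≤ m + 2 := by
  have h1 : ∑ q ∈ Finset.range Q, gs m q ≤ ∑ q ∈ Finset.range (m + 1 + Q), gs m q :=
    Finset.sum_le_sum_of_subset_of_nonneg (Finset.range_mono (by omega))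
      fun q _ _ => gs_nonneg m q
  have h2 := gs_sum m Q
  have h3 : (0 : ℝ) ≤ (1 / 2) ^ Q := by positivity
  linarith

/-- summation in blocks -/
theorem block_sum (f g : ℕ → ℝ) (N : ℕ)
    (hfg : ∀ q i, i < N → f (q * N + i) ≤ g q) (Q : ℕ) :
    ∑ t ∈ Finset.range (Q * N), f t ≤ N * ∑ q ∈ Finset.range Q, g q := by
  induction Q with
  | zero => simp
  | succ k ih =>
    rw [Nat.succ_mul, Finset.sum_range_add, Finset.sum_range_succ, mul_add]
    refine add_le_add ih ?_
    calc ∑ i ∈ Finset.range N, f (k * N + i) ≤ ∑ i ∈ Finset.range N, g k :=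
          Finset.sum_le_sum fun i hi => hfg k i (Finset.mem_range.1 hi)
      _ = N * g k := by simp

end ct3

theorem CT3_ok : S_MK → S_CT3 := by
  intro hMK V _ _ _ G μ hF hR K m S τ hK hτ hcv x
  set N : ℕ := ⌊2 * τ⌋₊ + 1 with hNdef
  have hN1 : 1 ≤ N := by omega
  have hN2 : 2 * τ < N := by
    rw [hNdef]; push_cast; exact Nat.lt_floor_add_one _
  have hN3 : (N : ℝ) ≤ 2 * τ + 1 := by
    rw [hNdef]; push_cast
    have := Nat.floor_le (show 0 ≤ 2 * τ by linarith)
    linarith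
  have hNpos : (0 : ℝ) < N := by exact_mod_cast hN1
  have hhalf : ∀ j < K, ∀ z, (μ z).real (unc (S j) (N - 1)) ≤ 1 / 2 := by
    intro j hj z
    have := hF.prob z
    have h1 : ∑ t ∈ Finset.range N, (μ z).real (unc (S j) t) ≤ τ :=
      ((summ_unc hF hR z (S j)).sum_le_tsum _ (fun t _ => measureReal_nonneg)).trans
        (hcv z j hj)
    have h2 : ∑ t ∈ Finset.range N, (μ z).real (unc (S j) (N - 1)) ≤
        ∑ t ∈ Finset.range N, (μ z).real (unc (S j) t) := by
      refine Finset.sum_le_sum fun t ht => measureReal_mono ?_ (measure_ne_top _ _)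
      rintro ω ⟨v, hv, hv2⟩
      rw [Finset.mem_range] at ht
      exact ⟨v, hv, fun s hs => hv2 s (by omega)⟩
    rw [Finset.sum_const, Finset.card_range, nsmul_eq_mul] at h2
    by_contra hc
    rw [not_le] at hc
    have h3 : (N : ℝ) * (1 / 2) < N * (μ z).real (unc (S j) (N - 1)) :=
      mul_lt_mul_of_pos_left hc hNpos
    linarith
  set U : Set V := ⋃ j ∈ Finset.range K, S j with hU
  have hx := hF.prob x
  have hfg : ∀ q i, i < N → (μ x).real (unc U (q * N + i)) ≤ gs m q := by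
    intro q i hi
    refine le_min measureReal_le_one ?_
    rcases Nat.eq_zero_or_pos q with h0 | h0
    · subst h0
      have : (1 : ℝ) ≤ 2 ^ m / 2 ^ 0 := by
        rw [pow_zero, div_one]; exact one_le_pow₀ (by norm_num)
      exact measureReal_le_one.trans this
    · obtain ⟨q', rfl⟩ : ∃ q', q = q' + 1 := ⟨q - 1, by omega⟩
      have h1 : unc U ((q' + 1) * N + i) ⊆ ⋃ j ∈ Finset.range K,
          unc (S j) ((q' + 1) * N - 1) := by
        rintro ω ⟨v, hv, hv2⟩
        rw [hU] at hv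
        simp only [Set.mem_iUnion] at hv ⊢
        obtain ⟨j, hj, hv⟩ := hv
        exact ⟨j, hj, v, hv, fun t ht => hv2 t (by omega)⟩
      calc (μ x).real (unc U ((q' + 1) * N + i)) ≤
          (μ x).real (⋃ j ∈ Finset.range K, unc (S j) ((q' + 1) * N - 1)) :=
            measureReal_mono h1 (measure_ne_top _ _)
        _ ≤ ∑ j ∈ Finset.range K, (μ x).real (unc (S j) ((q' + 1) * N - 1)) :=
            measureReal_biUnion_finset_le _ _
        _ ≤ ∑ j ∈ Finset.range K, (1 / 2 : ℝ) ^ (q' + 1) :=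
            Finset.sum_le_sum fun j hj => block_all hMK hF N (S j) hN1
              (hhalf j (Finset.mem_range.1 hj)) q' x
        _ = K * (1 / 2 : ℝ) ^ (q' + 1) := by simp
        _ ≤ 2 ^ m * (1 / 2 : ℝ) ^ (q' + 1) := by
            apply mul_le_mul_of_nonneg_right _ (by positivity)
            exact_mod_cast hK
        _ = 2 ^ m / 2 ^ (q' + 1) := by
            rw [one_div, inv_pow, div_eq_mul_inv]
  unfold cv
  apply Real.tsum_le_of_sum_range_le (fun t => measureReal_nonneg)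
  intro n
  have h1 : ∑ t ∈ Finset.range n, (μ x).real (unc U t) ≤
      ∑ t ∈ Finset.range (n * N), (μ x).real (unc U t) :=
    Finset.sum_le_sum_of_subset_of_nonneg (Finset.range_mono (Nat.le_mul_of_pos_right n hN1))
      fun q _ _ => measureReal_nonneg
  have h2 := block_sum (fun t => (μ x).real (unc U t)) (gs m) N hfg n
  have h3 := gs_sum' m n
  calc _ ≤ _ := h1
    _ ≤ _ := h2
    _ ≤ (N : ℝ) * (m + 2) := mul_le_mul_of_nonneg_left h3 hNpos.le
    _ ≤ (2 * τ + 1) * (m + 3) := by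
      apply mul_le_mul hN3 (by linarith) (by positivity) (by linarith)

end Pool.Agent.R695.CC
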